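import Pool.Agent.W206.ND.Stm

set_option autoImplicit false

namespace Pool.Agent.W802.ND.MX

open Pool.Agent.W206.ND

lemma ee_add_int (z : ℝ) (k : ℤ) : ee (z + k) = ee z := by
  unfold ee
  rw [Complex.exp_eq_exp_iff_exists_int]
  refine ⟨k, ?_⟩
  push_cast
  ring

lemma ee_congr (v : ℕ) (hv : 1 ≤ v) (p q : ℤ) (h : (v : ℤ) ∣ p - q) :
    ee (-((p : ℝ) / v)) = ee (-((q : ℝ) / v)) := by
  obtain ⟨k, hk⟩ := h
  have hv0 : (v : ℝ) ≠ 0 := by positivity
  have h1 : -((q : ℝ) / v) = -((p : ℝ) / v) + (k : ℤ) := by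
    have h2 : (p : ℝ) - q = v * k := by exact_mod_cast hk
    have h3 : (p : ℝ) = q + v * k := by linarith
    rw [h3]
    field_simp
    ring
  rw [h1, ee_add_int]

lemma ff_add_int (b : ℕ) (y : ℝ) (k : ℤ) : ff b (y + k) = ff b y := by
  unfold ff
  rw [Int.fract_add_intCast]

lemma ff_congr (b v : ℕ) (hv : 1 ≤ v) (y : ℝ) (p q : ℤ) (h : (v : ℤ) ∣ p - q) :
    ff b (y + (p : ℝ) / v) = ff b (y + (q : ℝ) / v) := by
  obtain ⟨k, hk⟩ := h
  have hv0 : (v : ℝ) ≠ 0 := by positivity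
  have h1 : y + (p : ℝ) / v = y + (q : ℝ) / v + (k : ℤ) := by
    have h2 : (p : ℝ) - q = v * k := by exact_mod_cast hk
    have h3 : (p : ℝ) = q + v * k := by linarith
    rw [h3]
    field_simp
    ring
  rw [h1, ff_add_int]

lemma mod_dvd (v a : ℕ) : (v : ℤ) ∣ (a : ℤ) - ((a % v : ℕ) : ℤ) := by
  have h := Nat.div_add_mod a v
  refine ⟨((a / v : ℕ) : ℤ), ?_⟩
  have h2 : (a : ℤ) = v * ((a / v : ℕ) : ℤ) + ((a % v : ℕ) : ℤ) := by exact_mod_cast h.symm
  linarith

lemma key (b L n : ℕ) (hb : 2 ≤ b) (hL : 1 ≤ L) :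
    b ^ n * b ^ (L - n % L) ≡ 1 [MOD (b ^ L - 1)] := by
  have h1 : b ^ L ≡ 1 [MOD (b ^ L - 1)] := by
    have h2 : 1 ≤ b ^ L := Nat.one_le_pow _ _ (by omega)
    have h3 : 1 + (b ^ L - 1) = b ^ L := by omega
    have h4 : 1 + (b ^ L - 1) ≡ 1 [MOD (b ^ L - 1)] := by
      simp [Nat.ModEq]
    rw [h3] at h4
    exact h4
  have h5 : n + (L - n % L) = L * (n / L + 1) := by
    have h6 := Nat.div_add_mod n L
    have h7 := Nat.mod_lt n (show 0 < L by omega)
    rw [mul_add, mul_one]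
    omega
  rw [← pow_add, h5, pow_mul]
  have h8 := h1.pow (n / L + 1)
  rw [one_pow] at h8
  exact h8

theorem main : S_MX := by
  intro b L N t x hb hL
  have hbL : 2 ≤ b ^ L := by
    calc 2 ≤ b := hb
      _ = b ^ 1 := (pow_one b).symm
      _ ≤ b ^ L := Nat.pow_le_pow_right (by omega) hL
  have hkey := fun n => key b L n hb hL
  set v : ℕ := b ^ L - 1 with hvdef
  have hv : 1 ≤ v := by omega
  have hv' : 0 < v := hv
  simp only [Complex.ofReal_sum, Finset.mul_sum]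
  rw [Finset.sum_comm]
  apply Finset.sum_congr rfl
  intro n _
  unfold KK
  refine Finset.sum_nbij' (fun u => u * b ^ n % v) (fun w => w * b ^ (L - n % L) % v) ?_ ?_ ?_ ?_ ?_
  · intro u _
    exact Finset.mem_range.2 (Nat.mod_lt _ hv')
  · intro u _
    exact Finset.mem_range.2 (Nat.mod_lt _ hv')
  · intro u hu
    have h1 : u * b ^ n % v * b ^ (L - n % L) ≡ u [MOD v] := by
      have h2 : u * b ^ n % v * b ^ (L - n % L) ≡ u * b ^ n * b ^ (L - n % L) [MOD v] :=
        (Nat.mod_modEq _ _).mul_right _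
      have h3 : u * b ^ n * b ^ (L - n % L) ≡ u * 1 [MOD v] := by
        rw [mul_assoc]
        exact (hkey n).mul_left u
      rw [mul_one] at h3
      exact h2.trans h3
    have h4 : u % v = u := Nat.mod_eq_of_lt (Finset.mem_range.1 hu)
    exact (show _ % v = u % v from h1).trans h4
  · intro w hw
    have h1 : w * b ^ (L - n % L) % v * b ^ n ≡ w [MOD v] := by
      have h2 : w * b ^ (L - n % L) % v * b ^ n ≡ w * b ^ (L - n % L) * b ^ n [MOD v] :=
        (Nat.mod_modEq _ _).mul_right _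
      have h3 : w * b ^ (L - n % L) * b ^ n ≡ w * 1 [MOD v] := by
        rw [mul_assoc, mul_comm (b ^ (L - n % L)) (b ^ n)]
        exact (hkey n).mul_left w
      rw [mul_one] at h3
      exact h2.trans h3
    have h4 : w % v = w := Nat.mod_eq_of_lt (Finset.mem_range.1 hw)
    exact (show _ % v = w % v from h1).trans h4
  · intro u hu
    have e1 : ee (-(t * u / (v : ℝ))) =
        ee (-(((t * (b : ℤ) ^ (L - n % L) : ℤ) : ℝ) * ((u * b ^ n % v : ℕ) : ℝ) / (v : ℝ))) := by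
      have h1 := ee_congr v hv (t * u) (t * (b : ℤ) ^ (L - n % L) * ((u * b ^ n % v : ℕ) : ℤ)) (by
        have h2 : u * b ^ n % v * b ^ (L - n % L) ≡ u [MOD v] := by
          have h2 : u * b ^ n % v * b ^ (L - n % L) ≡ u * b ^ n * b ^ (L - n % L) [MOD v] :=
            (Nat.mod_modEq _ _).mul_right _
          have h3 : u * b ^ n * b ^ (L - n % L) ≡ u * 1 [MOD v] := by
            rw [mul_assoc]
            exact (hkey n).mul_left u
          rw [mul_one] at h3
          exact h2.trans h3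
        have h5 := (Nat.modEq_iff_dvd.1 h2)
        have h6 : t * (u : ℤ) - t * (b : ℤ) ^ (L - n % L) * ((u * b ^ n % v : ℕ) : ℤ) =
            t * ((u : ℤ) - ((u * b ^ n % v * b ^ (L - n % L) : ℕ) : ℤ)) := by
          rw [Nat.cast_mul (u * b ^ n % v), Nat.cast_pow]
          ring
        rw [h6]
        exact h5.mul_left t)
      have h7 : (((t * (u : ℤ) : ℤ)) : ℝ) = (t : ℝ) * (u : ℝ) := by push_cast; ring
      have h8 : (((t * (b : ℤ) ^ (L - n % L) * ((u * b ^ n % v : ℕ) : ℤ) : ℤ)) : ℝ) =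
          ((t * (b : ℤ) ^ (L - n % L) : ℤ) : ℝ) * ((u * b ^ n % v : ℕ) : ℝ) := by
        rw [Int.cast_mul, Int.cast_natCast]
      rw [h7, h8] at h1
      exact h1
    have e2 : ff b ((x + u / (v : ℝ)) * (b : ℝ) ^ n) =
        ff b (x * (b : ℝ) ^ n + ((u * b ^ n % v : ℕ) : ℝ) / (v : ℝ)) := by
      have h1 := ff_congr b v hv (x * (b : ℝ) ^ n) ((u * b ^ n : ℕ) : ℤ)
        ((u * b ^ n % v : ℕ) : ℤ) (mod_dvd v _)
      rw [Int.cast_natCast, Int.cast_natCast] at h1
      rw [← h1]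
      congr 1
      push_cast
      ring
    rw [e1, e2]

end Pool.Agent.W802.ND.MX
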